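import Pool.Agent.Lib.MP_17a322_nt.FJ.S

/-!
The inequality with a fixed exponent and few exceptions implies the explicit inequality with exponents `ε`: end.
-/

namespace Pool.Agent.Lib.MP_17a322_nt.FJ

open MvPolynomial
open Pool.Agent.Lib.MP_17a322_nt.FI
open Pool.Agent.Lib.MP_17a322_nt.GQ

variable {n k : ℕ}

/-- The number of vectors is larger than the number of the exceptions. -/
private theorem B_count {c N u B C₁ T₀ T : ℝ} (hc : 0 < c) (hN : 2 * c ≤ N) (hu : 1 ≤ u) (hB : 0 ≤ B)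
    (hT₀ : 1 ≤ T₀) (h1 : C₁ * B ^ c < T₀ ^ c) (hT : T₀ * u ^ (2 * c / N) ≤ T) :
    C₁ * (B * u * T) ^ c < T ^ N := by
  have hu0 : 0 < u := by linarith
  have hT₀0 : 0 < T₀ := by linarith
  have hN0 : 0 < N := by linarith
  have hT0 : 0 < T := lt_of_lt_of_le (by positivity) hT
  have h2 : T₀ ^ c * u ^ c ≤ T ^ (N - c) := by
    have h3 : (T₀ * u ^ (2 * c / N)) ^ (N - c) ≤ T ^ (N - c) :=
      Real.rpow_le_rpow (by positivity) hT (by linarith)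
    refine le_trans ?_ h3
    rw [Real.mul_rpow hT₀0.le (by positivity), ← Real.rpow_mul hu0.le]
    refine mul_le_mul (Real.rpow_le_rpow_of_exponent_le hT₀ (by linarith))
      (Real.rpow_le_rpow_of_exponent_le hu ?_) (by positivity) (by positivity)
    rw [div_mul_eq_mul_div, le_div_iff₀ hN0]
    nlinarith
  have h4 : T ^ N = T ^ (N - c) * T ^ c := by
    rw [← Real.rpow_add hT0]
    congr 1
    ring
  rw [h4, Real.mul_rpow (by positivity) hT0.le, Real.mul_rpow hB hu0.le]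
  have h5 : 0 < T ^ c := Real.rpow_pos_of_pos hT0 _
  have h6 : 0 < u ^ c := Real.rpow_pos_of_pos hu0 _
  calc C₁ * (B ^ c * u ^ c * T ^ c) = C₁ * B ^ c * (u ^ c * T ^ c) := by ring
    _ < T₀ ^ c * (u ^ c * T ^ c) := mul_lt_mul_of_pos_right h1 (by positivity)
    _ = T₀ ^ c * u ^ c * T ^ c := by ring
    _ ≤ _ := mul_le_mul_of_nonneg_right h2 h5.le

/-- The loss. -/
private theorem B_loss {c N u B T₀ T e X ε κ : ℝ} (hc : 0 < c) (he : 0 ≤ e) (heN : e ≤ N) (hu : 1 ≤ u)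
    (hB : 0 ≤ B) (hT₀ : 1 ≤ T₀) (hT0 : 0 < T) (hT : T ≤ 2 * T₀ * u ^ (2 * c / N)) (hX : 1 ≤ X) (_hκ : 0 < κ)
    (hN : 0 < N) (hux : u ≤ 2 * X ^ (1 / κ)) (hε : (e + 4 * c) / κ ≤ ε) :
    T ^ N * (B * u * T) ^ e ≤ B ^ e * (2 * T₀) ^ (N + e) * 2 ^ (e + 4 * c) * X ^ ε := by
  have hu0 : 0 < u := by linarith
  have hT₀0 : 0 < T₀ := by linarith
  have h1 : T ^ (N + e) ≤ (2 * T₀) ^ (N + e) * u ^ (4 * c) := by
    refine (Real.rpow_le_rpow hT0.le hT (by linarith)).trans ?_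
    rw [Real.mul_rpow (by positivity) (by positivity), ← Real.rpow_mul hu0.le]
    refine mul_le_mul_of_nonneg_left (Real.rpow_le_rpow_of_exponent_le hu ?_) (by positivity)
    rw [div_mul_eq_mul_div, div_le_iff₀ hN]
    nlinarith
  have h2 : u ^ (e + 4 * c) ≤ 2 ^ (e + 4 * c) * X ^ ε := by
    refine (Real.rpow_le_rpow hu0.le hux (by linarith)).trans ?_
    have h3 : 0 ≤ X := by linarith
    rw [Real.mul_rpow (by norm_num) (Real.rpow_nonneg h3 _), ← Real.rpow_mul h3]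
    refine mul_le_mul_of_nonneg_left (Real.rpow_le_rpow_of_exponent_le hX ?_) (by positivity)
    rw [one_div, mul_comm, ← div_eq_mul_inv]
    exact hε
  have h3 : T ^ N * (B * u * T) ^ e = B ^ e * u ^ e * T ^ (N + e) := by
    rw [Real.mul_rpow (by positivity) hT0.le, Real.mul_rpow hB hu0.le, Real.rpow_add hT0]
    ring
  have h4 : 0 ≤ B ^ e := Real.rpow_nonneg hB _
  calc T ^ N * (B * u * T) ^ e = B ^ e * u ^ e * T ^ (N + e) := h3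
    _ ≤ B ^ e * u ^ e * ((2 * T₀) ^ (N + e) * u ^ (4 * c)) := mul_le_mul_of_nonneg_left h1 (by positivity)
    _ = B ^ e * (2 * T₀) ^ (N + e) * u ^ (e + 4 * c) := by
      rw [Real.rpow_add hu0]
      ring
    _ ≤ B ^ e * (2 * T₀) ^ (N + e) * (2 ^ (e + 4 * c) * X ^ ε) := mul_le_mul_of_nonneg_left h2 (by positivity)
    _ = _ := by ring

/-- The base. -/
private theorem B_base (hk : 0 < k) {x : Fin (n + 1) → ℤ} (hx : x ≠ 0) : ∃ u₀ : ℤ, 1 ≤ u₀ ∧ (∀ i, |x i| ≤ u₀ ^ k) ∧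
    (u₀ : ℝ) ≤ 2 * ‖x‖ ^ ((1 : ℝ) / k) ∧ 1 ≤ ‖x‖ := by
  obtain ⟨i₀, hi₀⟩ : ∃ i, x i ≠ 0 := by
    by_contra hcon
    push Not at hcon
    exact hx (funext hcon)
  have hx1 : 1 ≤ ‖x‖ := by
    have h1 : (1 : ℝ) ≤ ‖x i₀‖ := by
      rw [Int.norm_eq_abs]
      exact_mod_cast Int.one_le_abs hi₀
    exact h1.trans (norm_le_pi_norm x i₀)
  have hk' : (k : ℝ) ≠ 0 := by exact_mod_cast hk.ne'
  have h2 : 1 ≤ ‖x‖ ^ ((1 : ℝ) / k) := Real.one_le_rpow hx1 (by positivity)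
  refine ⟨⌈‖x‖ ^ ((1 : ℝ) / k)⌉, ?_, ?_, ?_, hx1⟩
  · have h3 : ((1 : ℤ) : ℝ) ≤ (⌈‖x‖ ^ ((1 : ℝ) / k)⌉ : ℝ) := by
      rw [Int.cast_one]
      exact h2.trans (Int.le_ceil _)
    exact_mod_cast h3
  · intro i
    have h3 : ‖x i‖ ≤ (⌈‖x‖ ^ ((1 : ℝ) / k)⌉ : ℝ) ^ k := by
      refine (norm_le_pi_norm x i).trans ?_
      have h4 : ‖x‖ = (‖x‖ ^ ((1 : ℝ) / k)) ^ k := by
        rw [← Real.rpow_natCast, ← Real.rpow_mul (norm_nonneg _), one_div, inv_mul_cancel₀ hk', Real.rpow_one]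
      conv_lhs => rw [h4]
      exact pow_le_pow_left₀ (by positivity) (Int.le_ceil _) k
    rw [Int.norm_eq_abs] at h3
    exact_mod_cast h3
  · have h3 := (Int.ceil_lt_add_one (‖x‖ ^ ((1 : ℝ) / k))).le
    linarith

/-- The vectors of bounded norm with a property are finitely many. -/
private theorem B_finite {ι : Type*} [Fintype ι] (B : ℕ) (P : (ι → ℤ) → Prop) :
    Set.Finite {z : ι → ℤ | ‖z‖ ≤ B ∧ P z} := by
  classical
  refine (Set.finite_Icc (fun _ : ι => -(B : ℤ)) fun _ => (B : ℤ)).subset ?_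
  intro z hz
  have h1 : ∀ i, |z i| ≤ (B : ℤ) := by
    intro i
    have h2 := (norm_le_pi_norm z i).trans hz.1
    rw [Int.norm_eq_abs] at h2
    exact_mod_cast h2
  rw [Set.mem_Icc]
  exact ⟨fun i => (abs_le.1 (h1 i)).1, fun i => (abs_le.1 (h1 i)).2⟩

/-- The inequality with the exponent `c` and few exceptions for `n` and `k` gives the explicit inequality with the
exponent `(5 c + n + 2) / k`. -/
theorem sq_of_sparse {c ε : ℝ} (hc : 0 < c) (hk0 : 0 < k) (h2c : 2 * c ≤ (n + 1) * k)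
    (hcn : c + (n + 2) ≤ (n + 1) * k) (hk : (5 * c + (n + 2)) / k ≤ ε) (h : FixSparse c n k) :
    ∃ (G : MvPolynomial (Fin (n + 1)) ℤ) (C : ℝ), G ≠ 0 ∧ (∃ d, G.IsHomogeneous d) ∧
    ∀ w : Fin (n + 1) → ℤ, Finset.univ.gcd w = 1 → eval w G ≠ 0 → ∀ s,
      |(sqDet w s : ℝ)| ≤ C * ‖w‖ ^ ε * (∏ p ∈ (∏ a, eval w (sqForm a)).natAbs.primeFactors, (p : ℝ)) *
        (Finset.univ.gcd (sqDet w) : ℤ) := by
  obtain ⟨G₁, C₀, hG₁, hmain⟩ := h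
  obtain ⟨C₁, hC₁⟩ : ∃ C₁ : ℝ, C₁ = max C₀ 1 := ⟨_, rfl⟩
  have hC1 : 1 ≤ C₁ := hC₁ ▸ le_max_right _ _
  have hC01 : C₀ ≤ C₁ := hC₁ ▸ le_max_left _ _
  have hC0 : 0 ≤ C₁ := by linarith
  have hvar : (∏ v : Var n k, (X v : MvPolynomial (Var n k) ℤ)) ≠ 0 := Finset.prod_ne_zero_iff.2 fun v _ => X_ne_zero v
  obtain ⟨G, B, ⟨e, hGh⟩, hG0, hpt⟩ := exists_pts hk0 (mul_ne_zero hG₁ hvar)
  obtain ⟨N, hN⟩ : ∃ N : ℕ, N = Fintype.card (Fin (n + 1) × Fin (n + 1) × Fin (n + 1)) := ⟨_, rfl⟩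
  obtain ⟨D, hD⟩ : ∃ D : ℕ, D = (n + 1) + 2 * N := ⟨_, rfl⟩
  have hP0 : (∏ a : Fin (n + 1) × Fin (n + 1) × Fin (n + 1), sqForm a) ≠ 0 :=
    Finset.prod_ne_zero_iff.2 fun a _ => sqForm_ne a
  have hPh : ∃ e, (∏ a : Fin (n + 1) × Fin (n + 1) × Fin (n + 1), sqForm a).IsHomogeneous e :=
    ⟨_, IsHomogeneous.prod _ _ _ fun a _ => sqForm_hom a⟩
  obtain ⟨e', he'⟩ := hPh
  -- the number `T₀`
  obtain ⟨T₀, hT₀⟩ : ∃ T₀ : ℕ, T₀ = ⌈(C₁ * (B : ℝ) ^ c) ^ (1 / c)⌉₊ + 1 := ⟨_, rfl⟩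
  have hT₀1 : (1 : ℝ) ≤ T₀ := by
    rw [hT₀]
    push_cast
    linarith [(Nat.cast_nonneg ⌈(C₁ * (B : ℝ) ^ c) ^ (1 / c)⌉₊ : (0 : ℝ) ≤ _)]
  have hT₀c : C₁ * (B : ℝ) ^ c < (T₀ : ℝ) ^ c := by
    have h1 : (C₁ * (B : ℝ) ^ c) ^ (1 / c) < T₀ := by
      rw [hT₀]
      push_cast
      linarith [Nat.le_ceil ((C₁ * (B : ℝ) ^ c) ^ (1 / c))]
    have h2 : (0 : ℝ) ≤ C₁ * (B : ℝ) ^ c := by positivity
    have h3 := Real.rpow_lt_rpow (Real.rpow_nonneg h2 _) h1 hc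
    rwa [← Real.rpow_mul h2, one_div, inv_mul_cancel₀ hc.ne', Real.rpow_one] at h3
  have hM0 : (0 : ℝ) < ((n + 1) * k : ℝ) := by
    have : (0 : ℝ) < k := by exact_mod_cast hk0
    positivity
  refine ⟨G * ∏ a, sqForm a, C₁ * (B : ℝ) ^ (k * (n + 1) + 2 * N + D) * ((B : ℝ) ^ (c + (n + 2)) *
    (2 * (T₀ : ℝ)) ^ ((n + 1) * k + (c + (n + 2)) : ℝ) * 2 ^ (c + (n + 2) + 4 * c)),
    mul_ne_zero hG0 hP0, ⟨e + e', hGh.mul he'⟩, ?_⟩
  intro x hg hGx t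
  rw [map_mul, map_prod, mul_ne_zero_iff, Finset.prod_ne_zero_iff] at hGx
  have h0 : ∀ t, eval x (sqForm t) ≠ 0 := fun t => hGx.2 t (Finset.mem_univ t)
  have hx0 : x ≠ 0 := by
    rintro rfl
    rw [Finset.gcd_eq_zero_iff.2 (by simp)] at hg
    exact zero_ne_one hg
  obtain ⟨u₀, hu1, hxu, hu2, hx1⟩ := B_base hk0 hx0
  have hur : (1 : ℝ) ≤ u₀ := by exact_mod_cast hu1
  obtain ⟨θ, hθ⟩ : ∃ θ : ℝ, θ = 2 * c / ((n + 1) * k : ℝ) := ⟨_, rfl⟩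
  have hθ0 : 0 ≤ θ := by
    rw [hθ]
    positivity
  have huθ : 1 ≤ (u₀ : ℝ) ^ θ := Real.one_le_rpow hur hθ0
  obtain ⟨T, hT⟩ : ∃ T : ℕ, T = T₀ * ⌈(u₀ : ℝ) ^ θ⌉₊ := ⟨_, rfl⟩
  have hTlow : (T₀ : ℝ) * (u₀ : ℝ) ^ θ ≤ T := by
    rw [hT]
    push_cast
    exact mul_le_mul_of_nonneg_left (Nat.le_ceil _) (by linarith)
  have hTup : (T : ℝ) ≤ 2 * T₀ * (u₀ : ℝ) ^ θ := by
    rw [hT]
    push_cast
    have h1 := (Nat.ceil_lt_add_one (by linarith : (0 : ℝ) ≤ (u₀ : ℝ) ^ θ)).le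
    have h2 : (⌈(u₀ : ℝ) ^ θ⌉₊ : ℝ) ≤ 2 * (u₀ : ℝ) ^ θ := by linarith
    have h3 := mul_le_mul_of_nonneg_left h2 (by linarith : (0 : ℝ) ≤ T₀)
    linarith
  have hT1r : (1 : ℝ) ≤ T := (one_le_mul_of_one_le_of_one_le hT₀1 huθ).trans hTlow
  have hT1 : 1 ≤ T := by exact_mod_cast hT1r
  obtain ⟨m, Z, hm0, hmB, hZc, hZ⟩ := hpt x u₀ T hGx.1 hu1 hT1 hxu
  have hB1 : (1 : ℤ) ≤ B := (Int.one_le_abs hm0).trans hmB
  -- one of the vectors satisfies the inequality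
  obtain ⟨z, hzZ, hzin⟩ : ∃ z ∈ Z, ∀ s, |(famDet z s : ℝ)| ≤ C₁ * ‖z‖ ^ c *
      (∏ p ∈ (∏ a, eval z (fam a)).natAbs.primeFactors, (p : ℝ)) * (Finset.univ.gcd (famDet z) : ℤ) := by
    by_contra hcon
    push Not at hcon
    obtain ⟨B', hB'⟩ : ∃ B' : ℕ, B' = B * u₀.toNat * T := ⟨_, rfl⟩
    have hu0' : ((u₀.toNat : ℕ) : ℤ) = u₀ := Int.toNat_of_nonneg (by omega)
    have hB'z : (B' : ℤ) = B * u₀ * T := by
      rw [hB']
      push_cast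
      rw [hu0']
    have hB'1 : 1 ≤ B' := by
      have h1 : (1 : ℤ) ≤ B' := by
        rw [hB'z]
        exact one_le_mul_of_one_le_of_one_le (one_le_mul_of_one_le_of_one_le hB1 hu1) (by exact_mod_cast hT1)
      exact_mod_cast h1
    have hB'r : (B' : ℝ) = B * u₀ * T := by exact_mod_cast hB'z
    have hsub : (Z : Set (Var n k → ℤ)) ⊆ {z : Var n k → ℤ | ‖z‖ ≤ B' ∧ eval z G₁ ≠ 0 ∧ ∃ s,
        C₀ * ‖z‖ ^ c * (∏ p ∈ (∏ a, eval z (fam a)).natAbs.primeFactors, (p : ℝ)) *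
        (Finset.univ.gcd (famDet z) : ℤ) < |(famDet z s : ℝ)|} := by
      intro z hz
      obtain ⟨huz, hzB, hxz, hzG⟩ := hZ z (Finset.mem_coe.1 hz)
      rw [map_mul, mul_ne_zero_iff] at hzG
      obtain ⟨s, hs⟩ := hcon z (Finset.mem_coe.1 hz)
      refine ⟨?_, hzG.1, s, lt_of_le_of_lt ?_ hs⟩
      · rw [pi_norm_le_iff_of_nonneg (Nat.cast_nonneg _)]
        intro v
        rw [Int.norm_eq_abs]
        have h1 := hzB v
        rw [← hB'z] at h1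
        exact_mod_cast h1
      · have h1 : (0 : ℝ) ≤ ((Finset.univ.gcd (famDet z) : ℤ) : ℝ) := by
          have h3 : (0 : ℤ) ≤ Finset.univ.gcd (famDet z) := by
            rw [← Finset.normalize_gcd, ← Int.abs_eq_normalize]
            exact abs_nonneg _
          exact_mod_cast h3
        have h2 : (0 : ℝ) ≤ ∏ p ∈ (∏ a, eval z (fam a)).natAbs.primeFactors, (p : ℝ) :=
          Finset.prod_nonneg fun p _ => Nat.cast_nonneg _
        have h3 : (0 : ℝ) ≤ ‖z‖ ^ c := Real.rpow_nonneg (norm_nonneg _) _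
        gcongr
    have h1 : Z.card ≤ Set.ncard {z : Var n k → ℤ | ‖z‖ ≤ B' ∧ eval z G₁ ≠ 0 ∧ ∃ s,
        C₀ * ‖z‖ ^ c * (∏ p ∈ (∏ a, eval z (fam a)).natAbs.primeFactors, (p : ℝ)) *
        (Finset.univ.gcd (famDet z) : ℤ) < |(famDet z s : ℝ)|} := by
      rw [← Set.ncard_coe_finset]
      exact Set.ncard_le_ncard hsub (B_finite B' _)
    have h2 := hmain B' hB'1
    have h3 : (T : ℝ) ^ ((n + 1) * k : ℝ) ≤ C₁ * (B * u₀ * T : ℝ) ^ c := by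
      have h4 : (T : ℝ) ^ ((n + 1) * k : ℝ) = ((T ^ ((n + 1) * k) : ℕ) : ℝ) := by
        rw [Nat.cast_pow, ← Real.rpow_natCast]
        congr 1
        push_cast
        ring
      rw [h4, ← hB'r]
      have h5 : ((T ^ ((n + 1) * k) : ℕ) : ℝ) ≤ ((Z.card : ℕ) : ℝ) := Nat.cast_le.2 hZc
      have h6 : ((Z.card : ℕ) : ℝ) ≤ _ := Nat.cast_le.2 h1
      refine h5.trans (h6.trans (h2.trans ?_))
      exact mul_le_mul_of_nonneg_right hC01 (Real.rpow_nonneg (Nat.cast_nonneg _) _)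
    have h4 := B_count hc h2c hur (Nat.cast_nonneg B) hT₀1 hT₀c (hθ ▸ hTlow)
    linarith
  obtain ⟨huz, hzB, hxz, hzG⟩ := hZ z hzZ
  rw [map_mul, map_prod, mul_ne_zero_iff, Finset.prod_ne_zero_iff] at hzG
  have hz0 : ∀ v, z v ≠ 0 := fun v => by
    have := hzG.2 v (Finset.mem_univ v)
    rwa [eval_X] at this
  have h1 := sq_step hc hC0 hN hD hu1 hT1 hm0 hmB huz hzB hxz hz0 h0 hzin t
  have h2 : (T : ℝ) ^ (k * (n + 1)) * (B * u₀ * T : ℝ) ^ (c + (n + 2)) ≤ (B : ℝ) ^ (c + (n + 2)) *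
      (2 * (T₀ : ℝ)) ^ ((n + 1) * k + (c + (n + 2)) : ℝ) * 2 ^ (c + (n + 2) + 4 * c) * ‖x‖ ^ ε := by
    have h3 : (T : ℝ) ^ (k * (n + 1)) = (T : ℝ) ^ ((n + 1) * k : ℝ) := by
      rw [← Real.rpow_natCast]
      congr 1
      push_cast
      ring
    rw [h3]
    refine B_loss hc (by positivity) hcn hur (Nat.cast_nonneg B) hT₀1 (by linarith) (hθ ▸ hTup) hx1
      (by exact_mod_cast hk0) hM0 hu2 ?_
    refine le_trans (le_of_eq ?_) hk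
    congr 1
    ring
  have h3 : (0 : ℝ) ≤ ∏ p ∈ (∏ a, eval x (sqForm a)).natAbs.primeFactors, (p : ℝ) :=
    Finset.prod_nonneg fun p _ => Nat.cast_nonneg _
  have h4 : (0 : ℝ) ≤ ((Finset.univ.gcd (sqDet x) : ℤ) : ℝ) := by
    have h5 : (0 : ℤ) ≤ Finset.univ.gcd (sqDet x) := by
      rw [← Finset.normalize_gcd, ← Int.abs_eq_normalize]
      exact abs_nonneg _
    exact_mod_cast h5
  refine h1.trans ?_
  refine mul_le_mul_of_nonneg_right (mul_le_mul_of_nonneg_right ?_ h3) h4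
  have h5 : (0 : ℝ) ≤ C₁ * (B : ℝ) ^ (k * (n + 1) + 2 * N + D) := by positivity
  have h6 := mul_le_mul_of_nonneg_left h2 h5
  refine (le_of_eq ?_).trans (h6.trans (le_of_eq ?_))
  · ring
  · ring

/-- The inequality with a fixed exponent has few exceptions. -/
theorem sparse_of_fix {c : ℝ} (h : FixInt c n k) : FixSparse c n k := by
  obtain ⟨G, C, hG, hmain⟩ := h
  refine ⟨G, max C 0, hG, fun B _ => ?_⟩
  have h1 : {z : Var n k → ℤ | ‖z‖ ≤ B ∧ eval z G ≠ 0 ∧ ∃ s,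
      max C 0 * ‖z‖ ^ c * (∏ p ∈ (∏ a, eval z (fam a)).natAbs.primeFactors, (p : ℝ)) *
        (Finset.univ.gcd (famDet z) : ℤ) < |(famDet z s : ℝ)|} = ∅ := by
    rw [Set.eq_empty_iff_forall_notMem]
    rintro z ⟨-, hzG, s, hs⟩
    have h2 := hmain z hzG s
    have h3 : (0 : ℝ) ≤ ((Finset.univ.gcd (famDet z) : ℤ) : ℝ) := by
      have h5 : (0 : ℤ) ≤ Finset.univ.gcd (famDet z) := by
        rw [← Finset.normalize_gcd, ← Int.abs_eq_normalize]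
        exact abs_nonneg _
      exact_mod_cast h5
    have h4 : (0 : ℝ) ≤ ∏ p ∈ (∏ a, eval z (fam a)).natAbs.primeFactors, (p : ℝ) :=
      Finset.prod_nonneg fun p _ => Nat.cast_nonneg _
    have h5 : (0 : ℝ) ≤ ‖z‖ ^ c := Real.rpow_nonneg (norm_nonneg _) _
    have h6 : C * ‖z‖ ^ c * (∏ p ∈ (∏ a, eval z (fam a)).natAbs.primeFactors, (p : ℝ)) *
        (Finset.univ.gcd (famDet z) : ℤ) ≤ max C 0 * ‖z‖ ^ c *
        (∏ p ∈ (∏ a, eval z (fam a)).natAbs.primeFactors, (p : ℝ)) * (Finset.univ.gcd (famDet z) : ℤ) := by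
      have := le_max_left C 0
      gcongr
    linarith
  rw [h1, Set.ncard_empty, Nat.cast_zero]
  have h2 : (0 : ℝ) ≤ (B : ℝ) ^ c := Real.rpow_nonneg (Nat.cast_nonneg _) _
  exact mul_nonneg (le_max_right _ _) h2

end Pool.Agent.Lib.MP_17a322_nt.FJ
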