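import Mathlib

/-!
Many representations of integers by digits, with a nonvanishing condition.
-/

namespace Pool.Agent.Lib.MP_17a322_nt.FJ

open MvPolynomial

private theorem B1_deg {σ τ : Type} (f : σ → MvPolynomial τ ℤ) (d : ℕ) (hf : ∀ i, (f i).totalDegree ≤ d)
    (F : MvPolynomial σ ℤ) : (aeval f F).totalDegree ≤ F.totalDegree * d := by
  rw [aeval_def, eval₂_eq]
  apply totalDegree_finsetSum_le
  intro m hm
  refine (totalDegree_mul _ _).trans ?_
  have h1 : (algebraMap ℤ (MvPolynomial τ ℤ) (coeff m F)).totalDegree = 0 := totalDegree_C _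
  rw [h1, zero_add]
  refine (totalDegree_finsetProd _ _).trans ?_
  calc ∑ i ∈ m.support, (f i ^ m i).totalDegree ≤ ∑ i ∈ m.support, m i * d :=
        Finset.sum_le_sum fun i _ => (totalDegree_pow _ _).trans (Nat.mul_le_mul_left _ (hf i))
    _ = (∑ i ∈ m.support, m i) * d := (Finset.sum_mul _ _ _).symm
    _ ≤ F.totalDegree * d := Nat.mul_le_mul_right _ (le_totalDegree hm)

private theorem B1_eval {σ τ : Type} (f : σ → MvPolynomial τ ℤ) (F : MvPolynomial σ ℤ) (z : τ → ℤ) :
    eval z (aeval f F) = eval (fun o => eval z (f o)) F := by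
  rw [aeval_def, ← coe_eval₂Hom]
  have : (eval z).comp (eval₂Hom (algebraMap ℤ (MvPolynomial τ ℤ)) f) = eval (fun o => eval z (f o)) := by
    apply MvPolynomial.ringHom_ext
    · intro r
      simp
    · intro i
      simp
  rw [← this]
  rfl

private theorem B1_grid {W : Type} [Finite W] (P : MvPolynomial W ℤ) (hP : P ≠ 0) (D : ℕ) (hD : P.totalDegree ≤ D)
    (b : W → ℤ) : ∃ t : W → ℤ, (∀ i, 0 ≤ t i ∧ t i ≤ D) ∧ eval (fun i => b i + t i) P ≠ 0 := by
  classical
  by_contra hcon
  apply hP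
  apply eq_zero_of_eval_zero_at_prod_finset P fun i => (Finset.range (D + 1)).image fun m : ℕ => b i + m
  · intro i
    rw [Finset.card_image_of_injective]
    · rw [Finset.card_range]
      exact Nat.lt_succ_of_le ((degreeOf_le_totalDegree P i).trans hD)
    · intro a c hac
      have : (a : ℤ) = c := by
        have h := hac
        simp only at h
        linarith
      exact_mod_cast this
  · intro x hx
    by_contra h0
    apply hcon
    refine ⟨fun i => x i - b i, fun i => ?_, ?_⟩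
    · obtain ⟨m, hm, hm'⟩ := Finset.mem_image.1 (hx i)
      rw [Finset.mem_range] at hm
      have h1 : x i - b i = m := by linarith
      show 0 ≤ x i - b i ∧ x i - b i ≤ D
      rw [h1]
      constructor
      · positivity
      · exact_mod_cast Nat.le_of_lt_succ hm
    · have : (fun i => b i + (x i - b i)) = x := by
        funext i
        ring
      rwa [this]

/-- The digits `w_ij` in terms of the quotients. -/
private noncomputable def qf (n k : ℕ) : Option (Fin (n + 1) × Fin k) → MvPolynomial (Option (Fin (n + 1) × Fin k)) ℤ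
  | none => X none
  | some (i, j) => X (some (i, j)) - X none * if h : (j : ℕ) + 1 < k then X (some (i, ⟨(j : ℕ) + 1, h⟩)) else 0

private theorem qf_deg (n k : ℕ) (o : Option (Fin (n + 1) × Fin k)) : (qf n k o).totalDegree ≤ 2 := by
  rcases o with _ | ⟨i, j⟩
  · rw [qf, totalDegree_X]
    norm_num
  · rw [qf]
    refine (totalDegree_sub _ _).trans (max_le ?_ ((totalDegree_mul _ _).trans ?_))
    · rw [totalDegree_X]
      norm_num
    · rw [totalDegree_X]
      split_ifs with h
      · rw [totalDegree_X]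
      · rw [totalDegree_zero]
        norm_num

private theorem qf_eval (n k : ℕ) (z : Option (Fin (n + 1) × Fin k) → ℤ) (i : Fin (n + 1)) (j : Fin k) :
    eval z (qf n k (some (i, j))) =
      z (some (i, j)) - z none * (if h : (j : ℕ) + 1 < k then z (some (i, ⟨(j : ℕ) + 1, h⟩)) else 0) := by
  rw [qf, map_sub, map_mul, eval_X, eval_X]
  split_ifs with h
  · rw [eval_X]
  · rw [map_zero]

private theorem qf_ne_zero (n k : ℕ) (F : MvPolynomial (Option (Fin (n + 1) × Fin k)) ℤ) (hF : F ≠ 0) :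
    aeval (qf n k) F ≠ 0 := by
  obtain ⟨y, hy⟩ : ∃ y, eval y F ≠ 0 := by
    by_contra hcon
    apply hF
    apply MvPolynomial.funext
    intro y
    rw [map_zero]
    by_contra h
    exact hcon ⟨y, h⟩
  obtain ⟨wy, hwy⟩ : ∃ wy : Fin (n + 1) → ℕ → ℤ, wy = fun i j => if h : j < k then y (some (i, ⟨j, h⟩)) else 0 := ⟨_, rfl⟩
  obtain ⟨qy, hqy⟩ : ∃ qy : Fin (n + 1) → ℕ → ℤ,
    qy = fun i j => ∑ l ∈ Finset.range (k - j), wy i (j + l) * y none ^ l := ⟨_, rfl⟩
  have h1 : ∀ i j, j < k → qy i j - y none * qy i (j + 1) = wy i j := by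
    intro i j hj
    have h2 : k - j = (k - (j + 1)) + 1 := by omega
    have h3 : ∀ l ∈ Finset.range (k - (j + 1)), wy i (j + (l + 1)) * y none ^ (l + 1) =
        y none * (wy i (j + 1 + l) * y none ^ l) := by
      intro l _
      have : j + (l + 1) = j + 1 + l := by ring
      rw [this]
      ring
    have h4 : qy i j = y none * qy i (j + 1) + wy i j := by
      rw [hqy]
      show ∑ l ∈ Finset.range (k - j), wy i (j + l) * y none ^ l =
        y none * ∑ l ∈ Finset.range (k - (j + 1)), wy i (j + 1 + l) * y none ^ l + wy i j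
      rw [h2, Finset.sum_range_succ', Finset.mul_sum, Finset.sum_congr rfl h3]
      simp
    rw [h4]
    ring
  have h6 : ∀ i, qy i k = 0 := by
    intro i
    rw [hqy]
    show ∑ l ∈ Finset.range (k - k), wy i (k + l) * y none ^ l = 0
    rw [Nat.sub_self]
    simp
  intro h0
  apply hy
  obtain ⟨z, hz⟩ : ∃ z : Option (Fin (n + 1) × Fin k) → ℤ, z = fun o => o.elim (y none) fun ij => qy ij.1 ij.2 := ⟨_, rfl⟩
  have h7 := B1_eval (qf n k) F z
  rw [h0, map_zero] at h7
  have h8 : (fun o => eval z (qf n k o)) = y := by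
    funext o
    rcases o with _ | ⟨i, j⟩
    · rw [qf, eval_X, hz]
      rfl
    · rw [qf_eval]
      have h9 : (if h : (j : ℕ) + 1 < k then z (some (i, ⟨(j : ℕ) + 1, h⟩)) else 0) = qy i (j + 1) := by
        split_ifs with h
        · rw [hz]
          rfl
        · have : (j : ℕ) + 1 = k := by
            have := j.2
            omega
          rw [this, h6]
      rw [h9]
      have h10 : z (some (i, j)) = qy i j := by
        rw [hz]
        rfl
      have h11 : z none = y none := by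
        rw [hz]
        rfl
      rw [h10, h11, h1 i j j.2, hwy]
      exact dif_pos j.2
  rw [h8] at h7
  exact h7.symm

private theorem B1_eval2 {W : Type} (G : MvPolynomial (Option W) ℤ) (u : ℤ) (b : W → ℤ) :
    eval b (aeval (fun o : Option W => o.elim (C u) X) G : MvPolynomial W ℤ) = eval (fun o => o.elim u b) G := by
  have h : (fun o : Option W => eval b (o.elim (C u) X : MvPolynomial W ℤ)) = fun o => o.elim u b := by
    funext o
    cases o with
    | none => exact eval_C _
    | some o => exact eval_X _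
  rw [B1_eval, h]

/-- The choice of the base. -/
private theorem B1_base {W : Type} [Finite W] (G : MvPolynomial (Option W) ℤ) (hG : G ≠ 0) (E : ℕ) (hE : G.totalDegree ≤ E)
    (u₀ : ℤ) : ∃ u : ℤ, u₀ ≤ u ∧ u ≤ u₀ + E ∧ (aeval (fun o : Option W => o.elim (C u) X) G : MvPolynomial W ℤ) ≠ 0 := by
  obtain ⟨z, hz⟩ : ∃ z, eval z G ≠ 0 := by
    by_contra hcon
    apply hG
    apply MvPolynomial.funext
    intro y
    rw [map_zero]
    by_contra h
    exact hcon ⟨y, h⟩
  obtain ⟨f, hf⟩ : ∃ f : Option W → MvPolynomial Unit ℤ, f = fun o => o.elim (X ()) fun ij => C (z (some ij)) := ⟨_, rfl⟩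
  have hfe : ∀ a : ℤ, (fun o => eval (fun _ : Unit => a) (f o)) = fun o : Option W => o.elim a fun ij => z (some ij) := by
    intro a
    funext o
    rw [hf]
    cases o with
    | none => exact eval_X _
    | some o => exact eval_C _
  have hz1 : (fun o : Option W => o.elim (z none) fun ij => z (some ij)) = z := by
    funext o
    cases o with
    | none => rfl
    | some o => rfl
  have hP10 : aeval f G ≠ 0 := by
    intro h
    have h1 := B1_eval f G fun _ => z none
    rw [h, map_zero, hfe, hz1] at h1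
    exact hz h1.symm
  have hP1d : (aeval f G).totalDegree ≤ E := by
    refine (B1_deg f 1 ?_ G).trans (by rw [mul_one]; exact hE)
    intro o
    rw [hf]
    cases o with
    | none => exact (totalDegree_X (R := ℤ) ()).le
    | some o =>
      show (C (z (some o)) : MvPolynomial Unit ℤ).totalDegree ≤ 1
      rw [totalDegree_C]
      norm_num
  obtain ⟨t0, ht0, ht0'⟩ := B1_grid (aeval f G) hP10 E hP1d (fun _ => u₀)
  refine ⟨u₀ + t0 (), by linarith [(ht0 ()).1], by linarith [(ht0 ()).2], ?_⟩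
  intro h
  apply ht0'
  have h2 : (fun i : Unit => u₀ + t0 i) = fun _ => u₀ + t0 () := by
    funext i
    rfl
  have h3 := B1_eval2 G (u₀ + t0 ()) fun ij => z (some ij)
  rw [h, map_zero] at h3
  rw [h2, B1_eval, hfe]
  exact h3.symm

/-- The digits of one integer: sizes. -/
private theorem B1_size (k E : ℕ) (hk : 0 < k) (x u : ℤ) (hu : 0 < u) (hx : |x| ≤ u ^ k) (q : ℕ → ℤ) (hq0 : q 0 = x)
    (hqs : ∀ j, j < k → x / u ^ (j + 1) ≤ q (j + 1) ∧ q (j + 1) ≤ x / u ^ (j + 1) + E) (hqk : q (k + 1) = 0) (j : ℕ)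
    (hj : j ≤ k) : |q j - u * q (j + 1)| ≤ (2 * E + 2) * u := by
  have hE0 : (0 : ℤ) ≤ E := by positivity
  have hEu : 0 ≤ (E : ℤ) * u := mul_nonneg hE0 hu.le
  have hEu' : (E : ℤ) ≤ E * u := by nlinarith
  have hdiv : ∀ m : ℕ, 0 ≤ x / u ^ m - u * (x / u ^ (m + 1)) ∧ x / u ^ m - u * (x / u ^ (m + 1)) < u := by
    intro m
    have h1 : x / u ^ (m + 1) = x / u ^ m / u := by
      rw [pow_succ, Int.ediv_ediv_of_nonneg]
      exact (pow_pos hu m).le
    rw [h1]
    have h2 := Int.emod_add_mul_ediv (x / u ^ m) u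
    have h3 := Int.emod_nonneg (x / u ^ m) hu.ne'
    have h4 := Int.emod_lt_of_pos (x / u ^ m) hu
    constructor
    · linarith
    · linarith
  have hlow : ∀ j, j ≤ k → x / u ^ j ≤ q j ∧ q j ≤ x / u ^ j + E := by
    intro j hj
    rcases j with _ | j
    · rw [hq0, pow_zero, Int.ediv_one]
      constructor
      · exact le_refl _
      · linarith
    · exact hqs j (by omega)
  rcases Nat.lt_or_ge j k with hj' | hj'
  · have h1 := hlow j hj
    have h2 := hqs j hj'
    have h3 := hdiv j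
    have h5 : u * (x / u ^ (j + 1)) ≤ u * q (j + 1) := mul_le_mul_of_nonneg_left h2.1 hu.le
    have h6 : u * q (j + 1) ≤ u * (x / u ^ (j + 1)) + E * u := by
      have := mul_le_mul_of_nonneg_left h2.2 hu.le
      linarith
    rw [abs_le]
    constructor
    · linarith [h1.1, h3.1]
    · linarith [h1.2, h3.2]
  · have hjk : j = k := by omega
    subst hjk
    rw [hqk, mul_zero, sub_zero]
    have h1 := hlow j hj
    rw [abs_le] at hx
    have hukp : 0 < u ^ j := pow_pos hu j
    have h7 : -1 ≤ x / u ^ j := by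
      rw [Int.le_ediv_iff_mul_le hukp]
      linarith
    have h8 : x / u ^ j ≤ 1 := by
      have : x / u ^ j < 2 := by
        rw [Int.ediv_lt_iff_lt_mul hukp]
        linarith
      linarith
    rw [abs_le]
    constructor
    · linarith [h1.1]
    · linarith [h1.2]

/-- For a nonzero polynomial `F` in `u` (the variable `none`) and the digits `w_ij`, `j ≥ 1` (the variables
`some (i, j)`, where `j` stands for `j + 1`), and integers `x_i` which are at most `u₀ ^ k` in absolute value there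
are a base `u ≥ u₀`, at most a constant times `u₀`, and at least `T ^ (k (n + 1))` vectors of integers `w_ij`, at most a
constant times `u₀ T`, such that `x_i = ∑ j, w_ij u ^ j` and `F` does not vanish at `u` and the `w_ij`, `j ≥ 1`. The
constant depends only on the degree of `F` and on `k`. -/
theorem exists_many_digits (n k D : ℕ) (hk : 0 < k) : ∃ B : ℕ, ∀ (F : MvPolynomial (Option (Fin (n + 1) × Fin k)) ℤ),
    F ≠ 0 → F.totalDegree ≤ D → ∀ (x : Fin (n + 1) → ℤ) (u₀ : ℤ) (T : ℕ), 1 ≤ u₀ → 1 ≤ T → (∀ i, |x i| ≤ u₀ ^ k) →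
    ∃ (u : ℤ) (w : (Fin (n + 1) × Fin k → Fin T) → Fin (n + 1) → Fin (k + 1) → ℤ), Function.Injective w ∧
      u₀ ≤ u ∧ u ≤ B * u₀ ∧ ∀ b, (∀ i j, |w b i j| ≤ B * u₀ * T) ∧
      (∀ i, ∑ j : Fin (k + 1), w b i j * u ^ (j : ℕ) = x i) ∧
      eval (fun o : Option (Fin (n + 1) × Fin k) => o.elim u fun ij => w b ij.1 ij.2.succ) F ≠ 0 := by
  obtain ⟨E, hE⟩ : ∃ E : ℕ, E = D * 2 := ⟨_, rfl⟩
  refine ⟨(2 * (E + 1) + 2) * (E + 1), ?_⟩
  intro F hF hD x u₀ T hu₀ hT hx
  have hG0 := qf_ne_zero n k F hF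
  have hGd : (aeval (qf n k) F).totalDegree ≤ E := by
    rw [hE]
    exact (B1_deg (qf n k) 2 (qf_deg n k) F).trans (Nat.mul_le_mul_right _ hD)
  obtain ⟨u, hu1, hu2, hu3⟩ := B1_base (aeval (qf n k) F) hG0 E hGd u₀
  have hupos : 0 < u := by linarith
  have hE0 : (0 : ℤ) ≤ E := by positivity
  have hT1 : (1 : ℤ) ≤ T := by exact_mod_cast hT
  have hu2' : u ≤ (E + 1) * u₀ := by nlinarith
  have hP2d : (aeval (fun o : Option (Fin (n + 1) × Fin k) => o.elim (C u) X) (aeval (qf n k) F) :
      MvPolynomial (Fin (n + 1) × Fin k) ℤ).totalDegree ≤ E := by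
    refine (B1_deg _ 1 ?_ _).trans (by rw [mul_one]; exact hGd)
    intro o
    cases o with
    | none =>
      show (C u : MvPolynomial (Fin (n + 1) × Fin k) ℤ).totalDegree ≤ 1
      rw [totalDegree_C]
      norm_num
    | some o => exact (totalDegree_X (R := ℤ) o).le
  have htb : ∀ b : Fin (n + 1) × Fin k → Fin T, ∃ t : Fin (n + 1) × Fin k → ℤ, (∀ i, 0 ≤ t i ∧ t i ≤ E) ∧
      eval (fun ij => x ij.1 / u ^ ((ij.2 : ℕ) + 1) + (E + 1) * (b ij : ℕ) + t ij)
        (aeval (fun o : Option (Fin (n + 1) × Fin k) => o.elim (C u) X) (aeval (qf n k) F) :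
          MvPolynomial (Fin (n + 1) × Fin k) ℤ) ≠ 0 := fun b => B1_grid _ hu3 E hP2d _
  choose t ht ht' using htb
  obtain ⟨τ, hτ⟩ : ∃ τ : (Fin (n + 1) × Fin k → Fin T) → Fin (n + 1) × Fin k → ℤ,
    τ = fun b ij => (E + 1) * (b ij : ℕ) + t b ij := ⟨_, rfl⟩
  have hτ1 : ∀ b ij, 0 ≤ τ b ij ∧ τ b ij ≤ ((T * (E + 1) : ℕ) : ℤ) := by
    intro b ij
    rw [hτ]
    show 0 ≤ ((E : ℤ) + 1) * (b ij : ℕ) + t b ij ∧ ((E : ℤ) + 1) * (b ij : ℕ) + t b ij ≤ ((T * (E + 1) : ℕ) : ℤ)
    have h1 := ht b ij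
    have h2 : ((b ij : ℕ) : ℤ) + 1 ≤ T := by exact_mod_cast (b ij).2
    have h3 : (0 : ℤ) ≤ ((b ij : ℕ) : ℤ) := Int.natCast_nonneg _
    push_cast
    constructor
    · have := mul_nonneg (by linarith : (0 : ℤ) ≤ (E : ℤ) + 1) h3
      linarith [h1.1]
    · have := mul_le_mul_of_nonneg_left h2 (by linarith : (0 : ℤ) ≤ (E : ℤ) + 1)
      linarith [h1.2]
  obtain ⟨q, hq⟩ : ∃ q : (Fin (n + 1) × Fin k → Fin T) → Fin (n + 1) → ℕ → ℤ, q = fun b i j =>
    if j = 0 then x i else if h : j - 1 < k then x i / u ^ j + τ b (i, ⟨j - 1, h⟩) else 0 := ⟨_, rfl⟩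
  have hq0 : ∀ b i, q b i 0 = x i := by
    intro b i
    rw [hq]
    exact if_pos rfl
  have hqs : ∀ b i j (h : j < k), q b i (j + 1) = x i / u ^ (j + 1) + τ b (i, ⟨j, h⟩) := by
    intro b i j h
    rw [hq]
    show (if j + 1 = 0 then x i else if h : j + 1 - 1 < k then x i / u ^ (j + 1) + τ b (i, ⟨j + 1 - 1, h⟩) else 0) = _
    rw [if_neg (Nat.succ_ne_zero j)]
    have h' : j + 1 - 1 < k := by omega
    rw [dif_pos h']
    rfl
  have hqk : ∀ b i, q b i (k + 1) = 0 := by
    intro b i
    rw [hq]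
    show (if k + 1 = 0 then x i else if h : k + 1 - 1 < k then x i / u ^ (k + 1) + τ b (i, ⟨k + 1 - 1, h⟩) else 0) = _
    rw [if_neg (Nat.succ_ne_zero k)]
    have h' : ¬ k + 1 - 1 < k := by omega
    rw [dif_neg h']
  refine ⟨u, fun b i j => q b i j - u * q b i (j + 1), ?_, hu1, ?_, ?_⟩
  · intro b b' hbb
    have h1 : ∀ (i : Fin (n + 1)) (j : ℕ), j ≤ k → q b i j - u * q b i (j + 1) = q b' i j - u * q b' i (j + 1) := by
      intro i j hj
      exact congrFun (congrFun hbb i) ⟨j, Nat.lt_succ_of_le hj⟩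
    have h2 : ∀ (i : Fin (n + 1)) (l : ℕ), l ≤ k → q b i (k + 1 - l) = q b' i (k + 1 - l) := by
      intro i l
      induction l with
      | zero =>
        intro _
        rw [Nat.sub_zero, hqk, hqk]
      | succ l ih =>
        intro hl
        have h3 := ih (by omega)
        have h4 := h1 i (k + 1 - (l + 1)) (by omega)
        have h5 : k + 1 - (l + 1) + 1 = k + 1 - l := by omega
        rw [h5, h3] at h4
        linarith
    funext ij
    obtain ⟨i, j⟩ := ij
    have h3 := h2 i (k - j) (by omega)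
    have h4 : k + 1 - (k - (j : ℕ)) = (j : ℕ) + 1 := by
      have := j.2
      omega
    rw [h4, hqs b i j j.2, hqs b' i j j.2] at h3
    have h5 : τ b (i, j) = τ b' (i, j) := by
      have h6 : τ b (i, ⟨(j : ℕ), j.2⟩) = τ b' (i, ⟨(j : ℕ), j.2⟩) := by linarith
      exact h6
    rw [hτ] at h5
    have h6 : ((E : ℤ) + 1) * (b (i, j) : ℕ) + t b (i, j) = ((E : ℤ) + 1) * (b' (i, j) : ℕ) + t b' (i, j) := h5
    have h7 := ht b (i, j)
    have h8 := ht b' (i, j)
    apply Fin.ext
    by_contra hne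
    rcases Nat.lt_or_gt_of_ne hne with h | h
    · have h9 : ((b (i, j) : ℕ) : ℤ) + 1 ≤ ((b' (i, j) : ℕ) : ℤ) := by exact_mod_cast h
      have := mul_le_mul_of_nonneg_left h9 (by linarith : (0 : ℤ) ≤ (E : ℤ) + 1)
      linarith [h7.1, h7.2, h8.1, h8.2]
    · have h9 : ((b' (i, j) : ℕ) : ℤ) + 1 ≤ ((b (i, j) : ℕ) : ℤ) := by exact_mod_cast h
      have := mul_le_mul_of_nonneg_left h9 (by linarith : (0 : ℤ) ≤ (E : ℤ) + 1)
      linarith [h7.1, h7.2, h8.1, h8.2]
  · push_cast
    have h1 : ((E : ℤ) + 1) * u₀ ≤ (2 * (E + 1) + 2) * (E + 1) * u₀ := by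
      have h2 : 0 ≤ ((E : ℤ) + 1) * u₀ := mul_nonneg (by linarith) (by linarith)
      nlinarith
    linarith
  · intro b
    refine ⟨?_, ?_, ?_⟩
    · intro i j
      have h1 := B1_size k (T * (E + 1)) hk (x i) u hupos ((hx i).trans (pow_le_pow_left₀ (by linarith) hu1 k)) (q b i)
        (hq0 b i) (fun j hj => by
          rw [hqs b i j hj]
          have := hτ1 b (i, ⟨j, hj⟩)
          exact ⟨by linarith [this.1], by linarith [this.2]⟩) (hqk b i) j (Nat.lt_succ_iff.1 j.2)
      refine h1.trans ?_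
      push_cast
      have h2 : (0 : ℤ) ≤ 2 * (T * (E + 1)) + 2 := by positivity
      have h3 := mul_le_mul_of_nonneg_left hu2' h2
      refine h3.trans ?_
      have h4 : (2 * ((T : ℤ) * (E + 1)) + 2) ≤ (2 * (E + 1) + 2) * T := by nlinarith
      have h5 : (0 : ℤ) ≤ ((E : ℤ) + 1) * u₀ := mul_nonneg (by linarith) (by linarith)
      have h6 := mul_le_mul_of_nonneg_right h4 h5
      calc (2 * ((T : ℤ) * (E + 1)) + 2) * ((E + 1) * u₀) ≤ (2 * (E + 1) + 2) * T * ((E + 1) * u₀) := h6
        _ = (2 * (E + 1) + 2) * (E + 1) * u₀ * T := by ring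
    · intro i
      have h1 : ∑ j : Fin (k + 1), (q b i j - u * q b i (j + 1)) * u ^ (j : ℕ) =
          ∑ j ∈ Finset.range (k + 1), (q b i j * u ^ j - q b i (j + 1) * u ^ (j + 1)) := by
        rw [Finset.sum_range]
        apply Finset.sum_congr rfl
        intro j _
        rw [pow_succ]
        ring
      show ∑ j : Fin (k + 1), (q b i j - u * q b i (j + 1)) * u ^ (j : ℕ) = x i
      rw [h1, Finset.sum_range_sub', hqk, hq0]
      ring
    · have ht'' := ht' b
      rw [B1_eval2, B1_eval] at ht''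
      obtain ⟨b₁, hb⟩ : ∃ b₁ : Option (Fin (n + 1) × Fin k) → ℤ, b₁ = fun o => o.elim u
        fun ij : Fin (n + 1) × Fin k => x ij.1 / u ^ ((ij.2 : ℕ) + 1) + (E + 1) * (b ij : ℕ) + t b ij := ⟨_, rfl⟩
      have hb0 : b₁ none = u := by
        rw [hb]
        rfl
      have hb1 : ∀ i j, b₁ (some (i, j)) = q b i ((j : ℕ) + 1) := by
        intro i j
        rw [hqs b i j j.2, hb, hτ]
        show x i / u ^ ((j : ℕ) + 1) + ((E : ℤ) + 1) * (b (i, j) : ℕ) + t b (i, j) =
          x i / u ^ ((j : ℕ) + 1) + (((E : ℤ) + 1) * (b (i, j) : ℕ) + t b (i, j))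
        ring
      rw [← hb] at ht''
      have h1 : (fun o : Option (Fin (n + 1) × Fin k) => o.elim u fun ij => q b ij.1 (ij.2.succ : Fin (k + 1)) -
          u * q b ij.1 ((ij.2.succ : Fin (k + 1)) + 1)) = fun o => eval b₁ (qf n k o) := by
        funext o
        rcases o with _ | ⟨i, j⟩
        · rw [qf, eval_X, hb0]
          rfl
        · rw [qf_eval, hb0, hb1]
          have h5 : (if h : (j : ℕ) + 1 < k then b₁ (some (i, ⟨(j : ℕ) + 1, h⟩)) else 0) = q b i (j + 1 + 1) := by
            split_ifs with h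
            · rw [hb1]
            · have : (j : ℕ) + 1 + 1 = k + 1 := by
                have := j.2
                omega
              rw [this, hqk]
          rw [h5]
          rfl
      rw [← h1] at ht''
      exact ht''

end Pool.Agent.Lib.MP_17a322_nt.FJ
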