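import Pool.Agent.Lib.MP_17a322_nt.FI.Def

/-!
The inequality with a fixed exponent and few exceptions for integers written in base `u`: definition.
-/

namespace Pool.Agent.Lib.MP_17a322_nt.FJ

open MvPolynomial
open Pool.Agent.Lib.MP_17a322_nt.FI

/-- The inequality with the exponent `c` and few exceptions: there are a polynomial `G ≠ 0` and a constant `C` such
that for every `B ≥ 1` there are at most `C B ^ c` vectors `z` of integers with `|z| ≤ B` and `G(z) ≠ 0` for which some
number `famDet z s` is larger than `C |z| ^ c` times the radical of the product of the values at `z` of the polynomials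
of the family times the greatest common divisor of the numbers `famDet z t`. -/
def FixSparse (c : ℝ) (n k : ℕ) : Prop :=
  ∃ (G : MvPolynomial (Var n k) ℤ) (C : ℝ), G ≠ 0 ∧ ∀ B : ℕ, 1 ≤ B →
    (Set.ncard {z : Var n k → ℤ | ‖z‖ ≤ B ∧ eval z G ≠ 0 ∧ ∃ s,
      C * ‖z‖ ^ c * (∏ p ∈ (∏ a, eval z (fam a)).natAbs.primeFactors, (p : ℝ)) * (Finset.univ.gcd (famDet z) : ℤ) <
        |(famDet z s : ℝ)|} : ℝ) ≤ C * (B : ℝ) ^ c

end Pool.Agent.Lib.MP_17a322_nt.FJ
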