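import Pool.Agent.Lib.MP_17a322_nt.FI.Fin
import Pool.Agent.Lib.MP_17a322_nt.FJ.B

/-!
The inequality with a fixed exponent and few exceptions implies Vojta's conjecture: the theorem.
-/

universe v

namespace Pool.Agent.Lib.MP_17a322_nt.FJ

open MvPolynomial
open Pool.Agent.Lib.MP_17a322_nt.GQ
open Pool.Agent.Lib.MP_17a322_nt.FI
open Pool.Agent.Lib.MP_17a322_nt.RAT (VojtaGaussRat)

variable {n k : ℕ}

/-- The inequalities with the exponents `η k` and few exceptions, `k` large, suffice. -/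
theorem sqInt_of_sparse (h : ∀ η : ℝ, 0 < η → ∀ k₀ : ℕ, ∃ k ≥ k₀, FixSparse (η * k) n k) : SqInt n := by
  intro ε hε
  obtain ⟨η, hη⟩ : ∃ η : ℝ, η = min (ε / 10) (1 / 4) := ⟨_, rfl⟩
  have hη0 : 0 < η := by
    rw [hη]
    exact lt_min (by positivity) (by norm_num)
  have hη1 : η ≤ ε / 10 := hη ▸ min_le_left _ _
  have hη2 : η ≤ 1 / 4 := hη ▸ min_le_right _ _
  obtain ⟨k₀, hk₀⟩ := exists_nat_gt (max (2 * ((n : ℝ) + 2) / ε) (2 * ((n : ℝ) + 2)))
  obtain ⟨k, hk, hfix⟩ := h η hη0 k₀
  have hkr : (k₀ : ℝ) ≤ k := by exact_mod_cast hk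
  have h1 : 2 * ((n : ℝ) + 2) / ε < k := (le_max_left _ _).trans_lt (hk₀.trans_le hkr)
  have h2 : 2 * ((n : ℝ) + 2) < k := (le_max_right _ _).trans_lt (hk₀.trans_le hkr)
  have hn0 : (0 : ℝ) ≤ n := Nat.cast_nonneg n
  have h3 : (0 : ℝ) < k := by linarith
  have h4 : (k : ℝ) ≤ (n + 1) * k := by nlinarith
  have h5 : η * k ≤ 1 / 4 * k := mul_le_mul_of_nonneg_right hη2 h3.le
  refine sq_of_sparse (by positivity) (by exact_mod_cast h3) ?_ ?_ ?_ hfix
  · linarith
  · linarith
  · rw [div_le_iff₀ h3]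
    rw [div_lt_iff₀ hε] at h1
    have h6 : η * k ≤ ε / 10 * k := mul_le_mul_of_nonneg_right hη1 h3.le
    linarith

/-- For every constant `c > 0` the inequality with the exponent `c` and few exceptions for all `k` suffices. -/
theorem sqInt_of_sparse' {c : ℝ} (hc : 0 < c) (h : ∀ k, FixSparse c n k) : SqInt n := by
  intro ε hε
  obtain ⟨k, hk⟩ := exists_nat_gt (max ((5 * c + (n + 2)) / ε) (2 * c + ((n : ℝ) + 2)))
  have h1 : (5 * c + (n + 2)) / ε < k := (le_max_left _ _).trans_lt hk
  have h2 : 2 * c + ((n : ℝ) + 2) < k := (le_max_right _ _).trans_lt hk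
  have hn0 : (0 : ℝ) ≤ n := Nat.cast_nonneg n
  have h3 : (0 : ℝ) < k := by linarith
  have h4 : (k : ℝ) ≤ (n + 1) * k := by nlinarith
  refine sq_of_sparse hc (by exact_mod_cast h3) ?_ ?_ ?_ (h k)
  · linarith
  · linarith
  · rw [div_le_iff₀ h3]
    rw [div_lt_iff₀ hε] at h1
    linarith

/-- The inequalities with the exponents `η k` and few exceptions for arbitrarily large `k` (for all `n` and `η > 0`)
are equivalent to the case `D = 0` of Vojta's conjecture for the rational projective varieties over any number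
field. -/
theorem sparseAsy_iff_rat (L : Type v) [Field L] [NumberField L] :
    (∀ (n : ℕ) (η : ℝ), 0 < η → ∀ k₀ : ℕ, ∃ k ≥ k₀, FixSparse (η * k) n k) ↔ VojtaGaussRat L := by
  constructor
  · intro h
    exact (sq_iff_rat L).1 fun n => sqInt_iff.1 (sqInt_of_sparse (h n))
  · intro h n η hη k₀
    obtain ⟨k, hk, hfix⟩ := (fixAsy_iff_rat L).2 h n η hη k₀
    exact ⟨k, hk, sparse_of_fix hfix⟩

/-- For every constant `c > 0` the inequality with the exponent `c` and few exceptions for all `n` and `k` is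
equivalent to the case `D = 0` of Vojta's conjecture for the rational projective varieties over any number field. -/
theorem sparse_iff_rat (L : Type v) [Field L] [NumberField L] {c : ℝ} (hc : 0 < c) :
    (∀ n k, FixSparse c n k) ↔ VojtaGaussRat L := by
  constructor
  · intro h
    exact (sq_iff_rat L).1 fun n => sqInt_iff.1 (sqInt_of_sparse' hc (h n))
  · exact fun h n k => sparse_of_fix ((fixInt_iff_rat L hc).2 h n k)


end Pool.Agent.Lib.MP_17a322_nt.FJ
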