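import Pool.Agent.Lib.MP_17a322_nt.FI.B
import Pool.Agent.Lib.MP_17a322_nt.FJ.P
import Pool.Agent.Lib.MP_17a322_nt.FJ.Def

/-!
The inequality with a fixed exponent and few exceptions implies the explicit inequality with exponents `ε`.
-/

namespace Pool.Agent.Lib.MP_17a322_nt.FJ

open MvPolynomial
open Pool.Agent.Lib.MP_17a322_nt.FI
open Pool.Agent.Lib.MP_17a322_nt.GQ

variable {n k : ℕ}

private theorem B_gcd_nonneg {ι : Type*} [Fintype ι] (f : ι → ℤ) : 0 ≤ Finset.univ.gcd f := by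
  rw [← Finset.normalize_gcd, ← Int.abs_eq_normalize]
  exact abs_nonneg _

/-- What one vector of digits which satisfies the inequality gives. -/
theorem sq_step {c : ℝ} (hc : 0 < c) {C₁ : ℝ} (hC0 : 0 ≤ C₁) {B T N D : ℕ} {x : Fin (n + 1) → ℤ} {u₀ m : ℤ}
    {z : Var n k → ℤ} (hN : N = Fintype.card (Fin (n + 1) × Fin (n + 1) × Fin (n + 1)))
    (hD : D = (n + 1) + 2 * N) (hu1 : 1 ≤ u₀) (hT : 1 ≤ T) (hm0 : m ≠ 0)
    (hmB : |m| ≤ B) (huz : u₀ ≤ z none) (hzB : ∀ o, |z o| ≤ B * u₀ * T) (hxz : xv z = fun i => m * x i)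
    (hz0 : ∀ v, z v ≠ 0) (h0 : ∀ t, eval x (sqForm t) ≠ 0)
    (hmain : ∀ s, |(famDet z s : ℝ)| ≤ C₁ * ‖z‖ ^ c *
      (∏ p ∈ (∏ a, eval z (fam a)).natAbs.primeFactors, (p : ℝ)) * (Finset.univ.gcd (famDet z) : ℤ))
    (t : Fin (n + 1) → Fin (n + 1) × Fin (n + 1) × Fin (n + 1)) :
    |(sqDet x t : ℝ)| ≤ C₁ * (B : ℝ) ^ (k * (n + 1) + 2 * N + D) * (T : ℝ) ^ (k * (n + 1)) *
      (B * u₀ * T : ℝ) ^ (c + (n + 2)) * (∏ p ∈ (∏ a, eval x (sqForm a)).natAbs.primeFactors, (p : ℝ)) *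
      (Finset.univ.gcd (sqDet x) : ℤ) := by
  obtain ⟨γ, hγ⟩ : ∃ γ : ℤ, γ = Finset.univ.gcd (sqDet x) := ⟨_, rfl⟩
  obtain ⟨R, hR⟩ : ∃ R : ℕ, R = rad (∏ a, eval x (sqForm a)).natAbs := ⟨_, rfl⟩
  have hRr : (∏ p ∈ (∏ a, eval x (sqForm a)).natAbs.primeFactors, (p : ℝ)) = (R : ℝ) := by
    rw [hR, rad, Nat.cast_prod]
  rw [hRr, ← hγ]
  have hγ0 : 0 ≤ γ := by
    rw [hγ]
    exact B_gcd_nonneg _
  by_cases hγz : γ = 0
  · have h1 : sqDet x t = 0 := by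
      rw [hγz] at hγ
      exact Finset.gcd_eq_zero_iff.1 hγ.symm t (Finset.mem_univ t)
    rw [h1, hγz]
    simp
  have hγ1 : 1 ≤ γ := by omega
  -- the numbers
  have hm1 : 1 ≤ |m| := Int.one_le_abs hm0
  have hB1 : (1 : ℤ) ≤ B := hm1.trans hmB
  have hBr : (1 : ℝ) ≤ B := by exact_mod_cast hB1
  have hur : (1 : ℝ) ≤ u₀ := by exact_mod_cast hu1
  have hTr : (1 : ℝ) ≤ T := by exact_mod_cast hT
  obtain ⟨β, hβ⟩ : ∃ β : ℝ, β = B * u₀ * T := ⟨_, rfl⟩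
  have hβ1 : 1 ≤ β := by
    rw [hβ]
    exact one_le_mul_of_one_le_of_one_le (one_le_mul_of_one_le_of_one_le hBr hur) hTr
  have hzβ : ∀ v, |(z v : ℝ)| ≤ β := by
    intro v
    rw [hβ]
    exact_mod_cast hzB v
  have hzn : ‖z‖ ≤ β := by
    rw [pi_norm_le_iff_of_nonneg (by linarith)]
    intro v
    rw [Int.norm_eq_abs]
    exact hzβ v
  rw [← hβ]
  -- the top digits
  obtain ⟨W, hW⟩ : ∃ W : ℝ, W = ∏ i : Fin (n + 1), |(z (some (i, Fin.last k)) : ℝ)| := ⟨_, rfl⟩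
  have hWp : 0 < W := by
    rw [hW]
    exact Finset.prod_pos fun i _ => abs_pos.2 (by exact_mod_cast hz0 _)
  -- the lower bound
  have hlow : ((u₀ : ℝ) ^ k) ^ (n + 1) * W * |(sqDet x t : ℝ)| ≤ |(famDet z (sOf (Fin.last k) t) : ℝ)| := by
    obtain ⟨d, -, hd⟩ := sqDet_smul m x t
    rw [famDet_sOf, hxz, hd, Fin.val_last]
    push_cast
    rw [abs_mul, abs_mul, abs_mul, Finset.abs_prod, ← hW, abs_pow, abs_pow, abs_pow]
    have h1 : (1 : ℝ) ≤ |(m : ℝ)| ^ d := one_le_pow₀ (by exact_mod_cast hm1)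
    have h2 : (u₀ : ℝ) ≤ |(z none : ℝ)| := by
      have h3 : u₀ ≤ |z none| := huz.trans (le_abs_self _)
      exact_mod_cast h3
    have h3 : ((u₀ : ℝ) ^ k) ^ (n + 1) ≤ (|(z none : ℝ)| ^ k) ^ (n + 1) :=
      pow_le_pow_left₀ (by positivity) (pow_le_pow_left₀ (by positivity) h2 _) _
    have h4 : |(sqDet x t : ℝ)| ≤ |(m : ℝ)| ^ d * |(sqDet x t : ℝ)| := le_mul_of_one_le_left (abs_nonneg _) h1
    calc ((u₀ : ℝ) ^ k) ^ (n + 1) * W * |(sqDet x t : ℝ)|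
        ≤ (|(z none : ℝ)| ^ k) ^ (n + 1) * W * (|(m : ℝ)| ^ d * |(sqDet x t : ℝ)|) := by gcongr
      _ = _ := by ring
  -- the greatest common divisor
  have hgcd : ((Finset.univ.gcd (famDet z) : ℤ) : ℝ) ≤ β ^ (n + 1) * (B : ℝ) ^ D * γ := by
    have h1 : Finset.univ.gcd (famDet z) ∣ (∏ i, z (some (i, 0))) * m ^ D * γ := by
      have h2 : ∀ t, Finset.univ.gcd (famDet z) ∣ (∏ i, z (some (i, 0))) * m ^ D * sqDet x t := by
        intro t
        obtain ⟨d, hd1, hd⟩ := sqDet_smul m x t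
        have h3 : Finset.univ.gcd (famDet z) ∣ famDet z (sOf 0 t) := Finset.gcd_dvd (Finset.mem_univ _)
        rw [famDet_sOf, hxz, hd, Fin.val_zero, pow_zero, one_pow, one_mul] at h3
        refine h3.trans ?_
        rw [mul_assoc]
        refine mul_dvd_mul_left _ (mul_dvd_mul_right (pow_dvd_pow _ ?_) _)
        rw [hD, hN]
        exact hd1
      have h3 : Finset.univ.gcd (famDet z) ∣
          Finset.univ.gcd fun t => (∏ i, z (some (i, 0))) * m ^ D * sqDet x t := Finset.dvd_gcd fun t _ => h2 t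
      rw [Finset.gcd_mul_left, ← hγ] at h3
      exact h3.trans (mul_dvd_mul_right (normalize_associated _).dvd _)
    have hW0 : (∏ i, z (some (i, 0))) ≠ 0 := Finset.prod_ne_zero_iff.2 fun i _ => hz0 _
    have h2 : (∏ i, z (some (i, 0))) * m ^ D * γ ≠ 0 := mul_ne_zero (mul_ne_zero hW0 (pow_ne_zero _ hm0)) hγz
    have h3 : Finset.univ.gcd (famDet z) ≤ |(∏ i, z (some (i, 0))) * m ^ D * γ| :=
      Int.le_of_dvd (abs_pos.2 h2) ((dvd_abs _ _).2 h1)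
    have h4 : ((Finset.univ.gcd (famDet z) : ℤ) : ℝ) ≤ ((|(∏ i, z (some (i, 0))) * m ^ D * γ| : ℤ) : ℝ) :=
      Int.cast_le.2 h3
    refine h4.trans ?_
    rw [abs_mul, abs_mul, abs_of_nonneg hγ0, Finset.abs_prod, abs_pow]
    push_cast
    have h5 : ∏ i : Fin (n + 1), |(z (some (i, 0)) : ℝ)| ≤ β ^ (n + 1) := by
      refine (Finset.prod_le_prod (fun i _ => abs_nonneg _) fun i _ => hzβ _).trans (le_of_eq ?_)
      rw [Finset.prod_const, Finset.card_univ, Fintype.card_fin]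
    have h6 : |(m : ℝ)| ^ D ≤ (B : ℝ) ^ D := pow_le_pow_left₀ (abs_nonneg _) (by exact_mod_cast hmB) _
    have h7 : (0 : ℝ) ≤ γ := by exact_mod_cast hγ0
    gcongr
  -- the radical
  have hrad : (∏ p ∈ (∏ a, eval z (fam a)).natAbs.primeFactors, (p : ℝ)) ≤
      β * (β ^ k) ^ (n + 1) * W * (B : ℝ) ^ (2 * N) * R := by
    have h1 : (∏ a, eval z (fam a)).natAbs =
        (∏ v, (z v).natAbs) * (m.natAbs ^ (2 * N) * (∏ a, eval x (sqForm a)).natAbs) := by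
      rw [Fintype.prod_sum_type, Int.natAbs_mul]
      congr 1
      · rw [Finset.prod_congr rfl fun v _ => eval_fam_inl z v]
        exact map_prod Int.natAbsHom _ _
      · rw [Finset.prod_congr rfl fun a _ => eval_fam_inr z a, hxz,
          Finset.prod_congr rfl fun a _ => eval_scale (sqForm_hom a) m x, Finset.prod_mul_distrib, Finset.prod_const,
          Finset.card_univ, ← hN, ← pow_mul, Int.natAbs_mul, Int.natAbs_pow]
    have h2 : (∏ v, (z v).natAbs) ≠ 0 := Finset.prod_ne_zero_iff.2 fun v _ => Int.natAbs_ne_zero.2 (hz0 v)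
    have h3 : (∏ a, eval x (sqForm a)).natAbs ≠ 0 :=
      Int.natAbs_ne_zero.2 (Finset.prod_ne_zero_iff.2 fun a _ => h0 a)
    have h4 : m.natAbs ^ (2 * N) ≠ 0 := pow_ne_zero _ (Int.natAbs_ne_zero.2 hm0)
    have h5 : rad (∏ a, eval z (fam a)).natAbs ≤ (∏ v, (z v).natAbs) * (m.natAbs ^ (2 * N) * R) := by
      rw [h1, hR]
      refine (rad_mul_le h2 (mul_ne_zero h4 h3)).trans (Nat.mul_le_mul (rad_le h2) ?_)
      exact (rad_mul_le h4 h3).trans (Nat.mul_le_mul (rad_le h4) le_rfl)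
    have h6 : ((rad (∏ a, eval z (fam a)).natAbs : ℕ) : ℝ) ≤
        (((∏ v, (z v).natAbs) * (m.natAbs ^ (2 * N) * R) : ℕ) : ℝ) := Nat.cast_le.2 h5
    rw [rad, Nat.cast_prod] at h6
    refine h6.trans ?_
    rw [Nat.cast_mul, Nat.cast_mul, Nat.cast_prod, Nat.cast_pow]
    simp only [Nat.cast_natAbs, Int.cast_abs]
    have h7 : ∏ v : Var n k, |(z v : ℝ)| ≤ β * ((β ^ k) ^ (n + 1) * W) := by
      rw [Fintype.prod_option, Fintype.prod_prod_type]
      refine mul_le_mul (hzβ _) ?_ (Finset.prod_nonneg fun i _ => Finset.prod_nonneg fun j _ => abs_nonneg _)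
        (by linarith)
      have h8 : ∀ i : Fin (n + 1), ∏ j : Fin (k + 1), |(z (some (i, j)) : ℝ)| =
          (∏ j : Fin k, |(z (some (i, j.castSucc)) : ℝ)|) * |(z (some (i, Fin.last k)) : ℝ)| := fun i =>
        Fin.prod_univ_castSucc _
      rw [Finset.prod_congr rfl fun i _ => h8 i, Finset.prod_mul_distrib, ← hW]
      refine mul_le_mul_of_nonneg_right ?_ hWp.le
      have h9 : ∀ i ∈ (Finset.univ : Finset (Fin (n + 1))),
          ∏ j : Fin k, |(z (some (i, j.castSucc)) : ℝ)| ≤ β ^ k := by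
        intro i _
        refine (Finset.prod_le_prod (fun j _ => abs_nonneg _) fun j _ => hzβ _).trans (le_of_eq ?_)
        rw [Finset.prod_const, Finset.card_univ, Fintype.card_fin]
      refine (Finset.prod_le_prod (fun i _ => Finset.prod_nonneg fun j _ => abs_nonneg _) h9).trans (le_of_eq ?_)
      rw [Finset.prod_const, Finset.card_univ, Fintype.card_fin]
    have h8 : |(m : ℝ)| ^ (2 * N) ≤ (B : ℝ) ^ (2 * N) := pow_le_pow_left₀ (abs_nonneg _) (by exact_mod_cast hmB) _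
    have h9 : (0 : ℝ) ≤ R := Nat.cast_nonneg _
    calc (∏ v : Var n k, |(z v : ℝ)|) * (|(m : ℝ)| ^ (2 * N) * R)
        ≤ (β * ((β ^ k) ^ (n + 1) * W)) * ((B : ℝ) ^ (2 * N) * R) := by gcongr
      _ = _ := by ring
  -- the inequality
  have hfin := hmain (sOf (Fin.last k) t)
  have hγr : (0 : ℝ) ≤ γ := by exact_mod_cast hγ0
  have hR0 : (0 : ℝ) ≤ R := Nat.cast_nonneg _
  have hu0 : (0 : ℝ) < u₀ := by linarith
  have hβ0 : 0 < β := by linarith
  have hB0 : (0 : ℝ) < B := by linarith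
  have h1 : ((u₀ : ℝ) ^ k) ^ (n + 1) * W * |(sqDet x t : ℝ)| ≤
      C₁ * β ^ c * (β * (β ^ k) ^ (n + 1) * W * (B : ℝ) ^ (2 * N) * R) * (β ^ (n + 1) * (B : ℝ) ^ D * γ) := by
    refine hlow.trans (hfin.trans ?_)
    have h2 : (0 : ℝ) ≤ ((Finset.univ.gcd (famDet z) : ℤ) : ℝ) := by exact_mod_cast B_gcd_nonneg _
    have h3 : (0 : ℝ) ≤ ∏ p ∈ (∏ a, eval z (fam a)).natAbs.primeFactors, (p : ℝ) :=
      Finset.prod_nonneg fun p _ => Nat.cast_nonneg _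
    have h4 : ‖z‖ ^ c ≤ β ^ c := Real.rpow_le_rpow (norm_nonneg _) hzn hc.le
    have h5 : (0 : ℝ) ≤ ‖z‖ ^ c := Real.rpow_nonneg (norm_nonneg _) _
    gcongr
  have h2 : (β ^ k) ^ (n + 1) = (B : ℝ) ^ (k * (n + 1)) * (T : ℝ) ^ (k * (n + 1)) * ((u₀ : ℝ) ^ k) ^ (n + 1) := by
    rw [hβ]
    rw [← pow_mul, ← pow_mul, mul_pow, mul_pow]
    ring
  have h4 : 0 < ((u₀ : ℝ) ^ k) ^ (n + 1) * W := by positivity
  have h5 : β ^ c * β ^ (n + 2) = β ^ (c + (n + 2)) := by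
    rw [Real.rpow_add hβ0]
    congr 1
    rw [← Real.rpow_natCast]
    push_cast
    ring_nf
  rw [← h5]
  refine le_of_mul_le_mul_left ?_ h4
  refine h1.trans (le_of_eq ?_)
  rw [h2]
  ring

end Pool.Agent.Lib.MP_17a322_nt.FJ
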